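import Pool.Agent.Helper44.KW.Defs

/-!
# KD, block F7: instances with a factor of class C^2

The functions `r x * x ^ (n + 1) + c n`, `r` positive of class `C^2`, are locally families.
-/

set_option autoImplicit false

namespace Pool.Agent.Helper81.KD

open MeasureTheory Set Filter Topology
open Pool.Agent.Helper78.KD
open Pool.Agent.Helper44.KW (LocFamI Inc)

/-- the factor of the derivative -/
def gg (r r1 : ℝ → ℝ) (N : ℕ) (x : ℝ) : ℝ := (N + 1) * r x + x * r1 x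

/-- the derivative of `r x * x ^ (N + 1)` -/
def vv (r r1 : ℝ → ℝ) (N : ℕ) (x : ℝ) : ℝ := x ^ N * gg r r1 N x

/-- the factor of the second derivative -/
def GG (r r1 r2 : ℝ → ℝ) (N : ℕ) (x : ℝ) : ℝ := N * (N + 1) * r x + 2 * (N + 1) * x * r1 x + x ^ 2 * r2 x

/-- bounds for a function and its derivatives on an interval -/
structure Bd (r r1 r2 : ℝ → ℝ) (p q m M X β : ℝ) : Prop where
  hβ : 1 < β
  hm : 0 < m
  hM : 0 ≤ M
  hX : 1 ≤ X
  d0 : ∀ x ∈ Icc p q, HasDerivAt r (r1 x) x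
  d1 : ∀ x ∈ Icc p q, HasDerivAt r1 (r2 x) x
  lo : ∀ x ∈ Icc p q, β ≤ x
  up : ∀ x ∈ Icc p q, x ≤ X
  rlo : ∀ x ∈ Icc p q, m ≤ r x
  rup : ∀ x ∈ Icc p q, r x ≤ M
  r1b : ∀ x ∈ Icc p q, |r1 x| ≤ M
  r2b : ∀ x ∈ Icc p q, |r2 x| ≤ M

variable {r r1 r2 : ℝ → ℝ} {p q m M X β : ℝ}

lemma pow_sub_one_eq (N : ℕ) {x : ℝ} (hx : x ≠ 0) : (N : ℝ) * x ^ (N - 1) = N * x ^ N / x := by
  rcases Nat.eq_zero_or_pos N with h | h
  · subst h; simp
  · rw [eq_div_iff hx, mul_assoc, ← pow_succ, Nat.sub_add_cancel h]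

lemma deriv_u (h : Bd r r1 r2 p q m M X β) (N : ℕ) (c : ℝ) {x : ℝ} (hx : x ∈ Icc p q) :
    HasDerivAt (fun y => r y * y ^ (N + 1) + c) (vv r r1 N x) x := by
  have h1 := ((h.d0 x hx).mul (hasDerivAt_pow (N + 1) x)).add_const c
  refine h1.congr_deriv ?_
  rw [Nat.add_sub_cancel]
  unfold vv gg
  push_cast
  ring

lemma deriv_v (h : Bd r r1 r2 p q m M X β) (N : ℕ) {x : ℝ} (hx : x ∈ Icc p q) :
    HasDerivAt (vv r r1 N) (x ^ N * GG r r1 r2 N x / x) x := by
  have hx0 : x ≠ 0 := by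
    have := h.lo x hx
    have := h.hβ
    linarith
  have h1 : HasDerivAt (fun y => ((N : ℝ) + 1) * r y + y * r1 y) (((N : ℝ) + 1) * r1 x + (1 * r1 x + x * r2 x)) x :=
    ((h.d0 x hx).const_mul _).add ((hasDerivAt_id x).mul (h.d1 x hx))
  have h2 := (hasDerivAt_pow N x).mul h1
  refine h2.congr_deriv ?_
  rw [pow_sub_one_eq N hx0]
  unfold GG
  field_simp
  ring

lemma gg_lo (h : Bd r r1 r2 p q m M X β) {N : ℕ} (hN : 2 * X * M + X ^ 2 * M ≤ N * m / 2) {x : ℝ} (hx : x ∈ Icc p q) :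
    ((N : ℝ) + 1) * m / 2 ≤ gg r r1 N x := by
  have h1 := h.rlo x hx
  have h2 := abs_le.1 (h.r1b x hx)
  have h3 := h.lo x hx
  have h4 := h.up x hx
  have hβ := h.hβ
  have hM := h.hM
  have hX := h.hX
  have hm := h.hm
  have h5 : -(X * M) ≤ x * r1 x := by
    have : x * (-M) ≤ x * r1 x := mul_le_mul_of_nonneg_left h2.1 (by linarith)
    nlinarith
  have h6 : ((N : ℝ) + 1) * m ≤ (N + 1) * r x := mul_le_mul_of_nonneg_left h1 (by positivity)
  have h7 : 0 ≤ X ^ 2 * M := by positivity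
  have h8 : 0 ≤ X * M := by positivity
  unfold gg
  nlinarith

lemma GG_lo (h : Bd r r1 r2 p q m M X β) {N : ℕ} (hN : 2 * X * M + X ^ 2 * M ≤ N * m / 2) {x : ℝ} (hx : x ∈ Icc p q) :
    (N : ℝ) * (N + 1) * m / 2 ≤ GG r r1 r2 N x := by
  have h1 := h.rlo x hx
  have h2 := abs_le.1 (h.r1b x hx)
  have h2' := abs_le.1 (h.r2b x hx)
  have h3 := h.lo x hx
  have h4 := h.up x hx
  have hβ := h.hβ
  have hM := h.hM
  have hX := h.hX
  have hm := h.hm
  have hx0 : 0 ≤ x := by linarith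
  have h5 : -(X * M) ≤ x * r1 x := by
    have : x * (-M) ≤ x * r1 x := mul_le_mul_of_nonneg_left h2.1 (by linarith)
    nlinarith
  have h5' : -(X ^ 2 * M) ≤ x ^ 2 * r2 x := by
    have h8 : x ^ 2 * (-M) ≤ x ^ 2 * r2 x := mul_le_mul_of_nonneg_left h2'.1 (by positivity)
    have h9 : x ^ 2 ≤ X ^ 2 := pow_le_pow_left₀ hx0 h4 2
    nlinarith
  have hN0 : (0 : ℝ) ≤ N := Nat.cast_nonneg N
  have h6 : (N : ℝ) * (N + 1) * m ≤ N * (N + 1) * r x := mul_le_mul_of_nonneg_left h1 (by positivity)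
  have h7 : ((N : ℝ) + 1) * (2 * X * M + X ^ 2 * M) ≤ (N + 1) * (N * m / 2) := mul_le_mul_of_nonneg_left hN (by positivity)
  have h8 : (2 * ((N : ℝ) + 1)) * (-(X * M)) ≤ (2 * ((N : ℝ) + 1)) * (x * r1 x) := mul_le_mul_of_nonneg_left h5 (by positivity)
  have h9 : 0 ≤ (N : ℝ) * (X ^ 2 * M) := by positivity
  unfold GG
  nlinarith

lemma GG_up (h : Bd r r1 r2 p q m M X β) (N : ℕ) {x : ℝ} (hx : x ∈ Icc p q) :
    GG r r1 r2 N x ≤ ((N : ℝ) + 1) ^ 2 * (M * (1 + X) ^ 2) := by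
  have h1 := h.rup x hx
  have h2 := abs_le.1 (h.r1b x hx)
  have h2' := abs_le.1 (h.r2b x hx)
  have h3 := h.lo x hx
  have h4 := h.up x hx
  have hβ := h.hβ
  have hM := h.hM
  have hX := h.hX
  have hx0 : 0 ≤ x := by linarith
  have hN0 : (0 : ℝ) ≤ N := Nat.cast_nonneg N
  have h5 : x * r1 x ≤ X * M := by
    have : x * r1 x ≤ x * M := mul_le_mul_of_nonneg_left h2.2 hx0
    nlinarith
  have h5' : x ^ 2 * r2 x ≤ X ^ 2 * M := by
    have h8 : x ^ 2 * r2 x ≤ x ^ 2 * M := mul_le_mul_of_nonneg_left h2'.2 (by positivity)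
    have h9 : x ^ 2 ≤ X ^ 2 := pow_le_pow_left₀ hx0 h4 2
    nlinarith
  have h6 : (N : ℝ) * (N + 1) * r x ≤ N * (N + 1) * M := mul_le_mul_of_nonneg_left h1 (by positivity)
  have h8 : (2 * ((N : ℝ) + 1)) * (x * r1 x) ≤ (2 * ((N : ℝ) + 1)) * (X * M) := mul_le_mul_of_nonneg_left h5 (by positivity)
  have h9 : 0 ≤ X * M := by positivity
  have h10 : 0 ≤ X ^ 2 * M := by positivity
  have h11 : 0 ≤ (N : ℝ) * M := by positivity
  have h12 : 0 ≤ (N : ℝ) * (X * M) := by positivity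
  have h13 : 0 ≤ (N : ℝ) ^ 2 * (X * M) := by positivity
  have h14 : 0 ≤ (N : ℝ) * (X ^ 2 * M) := by positivity
  have h15 : 0 ≤ (N : ℝ) ^ 2 * (X ^ 2 * M) := by positivity
  unfold GG
  nlinarith

lemma gg_ratio (h : Bd r r1 r2 p q m M X β) {N d D : ℕ} {ε : ℝ} (hd : d ≤ D)
    (hN : 2 * X * M + X ^ 2 * M ≤ N * m / 2) (hε : (D : ℝ) * (D + 3 + 2 * X) * M ≤ ε * (N * m / 2)) (hε0 : 0 ≤ ε)
    {x : ℝ} (hx : x ∈ Icc p q) :
    |gg r r1 (N + d) x - gg r r1 N x| ≤ ε * gg r r1 N x := by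
  have h1 := h.rlo x hx
  have h1' := h.rup x hx
  have hm := h.hm
  have hM := h.hM
  have hX := h.hX
  have hlo := gg_lo h hN hx
  have hdR : (d : ℝ) ≤ D := by exact_mod_cast hd
  have hd0 : (0 : ℝ) ≤ d := Nat.cast_nonneg d
  have hD0 : (0 : ℝ) ≤ D := Nat.cast_nonneg D
  have e : gg r r1 (N + d) x - gg r r1 N x = d * r x := by
    unfold gg
    push_cast
    ring
  rw [e, abs_of_nonneg (mul_nonneg hd0 (by linarith))]
  have h2 : (d : ℝ) * r x ≤ D * M := mul_le_mul hdR h1' (by linarith) hD0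
  have h3 : ε * (((N : ℝ) + 1) * m / 2) ≤ ε * gg r r1 N x := mul_le_mul_of_nonneg_left hlo hε0
  have h4 : 0 ≤ ε * m := by positivity
  have h5 : 0 ≤ (D : ℝ) * M := by positivity
  have h6 : 0 ≤ (D : ℝ) * M * (D + 2 + 2 * X) := by positivity
  nlinarith

lemma GG_ratio (h : Bd r r1 r2 p q m M X β) {N d D : ℕ} {ε : ℝ} (hd : d ≤ D)
    (hN : 2 * X * M + X ^ 2 * M ≤ N * m / 2) (hε : (D : ℝ) * (D + 3 + 2 * X) * M ≤ ε * (N * m / 2)) (hε0 : 0 ≤ ε)
    {x : ℝ} (hx : x ∈ Icc p q) :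
    |GG r r1 r2 (N + d) x - GG r r1 r2 N x| ≤ ε * GG r r1 r2 N x := by
  have h1 := h.rlo x hx
  have h1' := h.rup x hx
  have h2 := abs_le.1 (h.r1b x hx)
  have h3 := h.lo x hx
  have h4 := h.up x hx
  have hβ := h.hβ
  have hm := h.hm
  have hM := h.hM
  have hX := h.hX
  have hx0 : 0 ≤ x := by linarith
  have hlo := GG_lo h hN hx
  have hdR : (d : ℝ) ≤ D := by exact_mod_cast hd
  have hd0 : (0 : ℝ) ≤ d := Nat.cast_nonneg d
  have hD0 : (0 : ℝ) ≤ D := Nat.cast_nonneg D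
  have hN0 : (0 : ℝ) ≤ N := Nat.cast_nonneg N
  have e : GG r r1 r2 (N + d) x - GG r r1 r2 N x = d * ((2 * N + d + 1) * r x + 2 * (x * r1 x)) := by
    unfold GG
    push_cast
    ring
  have h5 : |x * r1 x| ≤ X * M := by
    rw [abs_mul, abs_of_nonneg hx0]
    exact mul_le_mul h4 (h.r1b x hx) (abs_nonneg _) (by linarith)
  have h6 : |(2 * (N : ℝ) + d + 1) * r x + 2 * (x * r1 x)| ≤ (2 * N + D + 1) * M + 2 * (X * M) := by
    refine (abs_add_le _ _).trans ?_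
    have h7 : |(2 * (N : ℝ) + d + 1) * r x| ≤ (2 * N + D + 1) * M := by
      rw [abs_mul, abs_of_nonneg (by positivity), abs_of_nonneg (by linarith)]
      exact mul_le_mul (by linarith) h1' (by linarith) (by positivity)
    have h8 : |2 * (x * r1 x)| ≤ 2 * (X * M) := by
      rw [abs_mul, abs_of_pos (by norm_num : (0 : ℝ) < 2)]
      linarith
    exact add_le_add h7 h8
  rw [e, abs_mul, abs_of_nonneg hd0]
  have h9 : (d : ℝ) * |(2 * (N : ℝ) + d + 1) * r x + 2 * (x * r1 x)| ≤ D * ((2 * N + D + 1) * M + 2 * (X * M)) :=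
    mul_le_mul hdR h6 (abs_nonneg _) hD0
  have h10 : (D : ℝ) * ((2 * N + D + 1) * M + 2 * (X * M)) ≤ (N + 1) * ((D : ℝ) * (D + 3 + 2 * X) * M) := by
    have h11 : (2 * (N : ℝ) + D + 1) * M + 2 * (X * M) ≤ (N + 1) * ((D + 3 + 2 * X) * M) := by
      have a1 : 0 ≤ (N : ℝ) * M := by positivity
      have a2 : 0 ≤ (N : ℝ) * D * M := by positivity
      have a3 : 0 ≤ (N : ℝ) * (X * M) := by positivity
      nlinarith
    calc (D : ℝ) * ((2 * N + D + 1) * M + 2 * (X * M)) ≤ D * ((N + 1) * ((D + 3 + 2 * X) * M)) :=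
          mul_le_mul_of_nonneg_left h11 hD0
      _ = _ := by ring
  have h11 : ((N : ℝ) + 1) * ((D : ℝ) * (D + 3 + 2 * X) * M) ≤ (N + 1) * (ε * (N * m / 2)) :=
    mul_le_mul_of_nonneg_left hε (by positivity)
  have h12 : ε * ((N : ℝ) * (N + 1) * m / 2) ≤ ε * GG r r1 r2 N x := mul_le_mul_of_nonneg_left hlo hε0
  have e2 : ((N : ℝ) + 1) * (ε * (N * m / 2)) = ε * ((N : ℝ) * (N + 1) * m / 2) := by ring
  linarith

/-- monotonicity of a combination of two derivatives -/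
lemma mono_comb (h : Bd r r1 r2 p q m M X β) (N d : ℕ) (P Q : ℝ)
    (hpos : ∀ y ∈ Icc p q, 0 ≤ P * GG r r1 r2 N y + Q * y ^ d * GG r r1 r2 (N + d) y) :
    MonotoneOn (fun y => P * vv r r1 N y + Q * vv r r1 (N + d) y) (Icc p q) := by
  have hder : ∀ y ∈ Icc p q, HasDerivAt (fun y => P * vv r r1 N y + Q * vv r r1 (N + d) y)
      (P * (y ^ N * GG r r1 r2 N y / y) + Q * (y ^ (N + d) * GG r r1 r2 (N + d) y / y)) y := fun y hy =>
    ((deriv_v h N hy).const_mul P).add ((deriv_v h (N + d) hy).const_mul Q)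
  refine monotoneOn_of_deriv_nonneg (convex_Icc p q) (fun y hy => (hder y hy).continuousAt.continuousWithinAt)
    (fun y hy => (hder y (interior_subset hy)).differentiableAt.differentiableWithinAt) ?_
  intro y hy
  have hy' : y ∈ Icc p q := interior_subset hy
  have hy0 : 0 < y := by
    have := h.lo y hy'
    have := h.hβ
    linarith
  rw [(hder y hy').deriv]
  have e : P * (y ^ N * GG r r1 r2 N y / y) + Q * (y ^ (N + d) * GG r r1 r2 (N + d) y / y) =
      y ^ N / y * (P * GG r r1 r2 N y + Q * y ^ d * GG r r1 r2 (N + d) y) := by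
    rw [pow_add]
    ring
  rw [e]
  exact mul_nonneg (by positivity) (hpos y hy')

/-- distortion of the derivative -/
lemma dist_v (h : Bd r r1 r2 p q m M X β) {N : ℕ} (hN : 2 * X * M + X ^ 2 * M ≤ N * m / 2) {y z : ℝ}
    (hy : y ∈ Icc p q) (hz : z ∈ Icc p q) (hyz : y ≤ z) :
    vv r r1 N z ≤ Real.exp (2 * (M * (1 + X) ^ 2) / m * (N + 1) * (z - y)) * vv r r1 N y := by
  set K : ℝ := 2 * (M * (1 + X) ^ 2) / m * (N + 1) with hK
  have hm := h.hm
  have hβ := h.hβ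
  have hder : ∀ x ∈ Icc p q, HasDerivAt (fun x => vv r r1 N x * Real.exp (-(K * x)))
      (x ^ N * GG r r1 r2 N x / x * Real.exp (-(K * x)) + vv r r1 N x * (Real.exp (-(K * x)) * (-(K * 1)))) x := fun x hx =>
    (deriv_v h N hx).mul ((((hasDerivAt_id x).const_mul K).neg).exp)
  have hanti : AntitoneOn (fun x => vv r r1 N x * Real.exp (-(K * x))) (Icc p q) := by
    refine antitoneOn_of_deriv_nonpos (convex_Icc p q) (fun y hy => (hder y hy).continuousAt.continuousWithinAt)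
      (fun y hy => (hder y (interior_subset hy)).differentiableAt.differentiableWithinAt) ?_
    intro x hx
    have hx' : x ∈ Icc p q := interior_subset hx
    have hx1 : 1 ≤ x := by linarith [h.lo x hx']
    rw [(hder x hx').deriv]
    have h1 : x ^ N * GG r r1 r2 N x / x ≤ K * vv r r1 N x := by
      have h2 := GG_up h N hx'
      have h3 := gg_lo h hN hx'
      have hxN : 0 < x ^ N := by positivity
      have h4 : 0 ≤ GG r r1 r2 N x := le_trans (by positivity) (GG_lo h hN hx')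
      have h5 : x ^ N * GG r r1 r2 N x / x ≤ x ^ N * GG r r1 r2 N x := div_le_self (by positivity) hx1
      have h6 : GG r r1 r2 N x ≤ K * gg r r1 N x := by
        have h7 : K * (((N : ℝ) + 1) * m / 2) ≤ K * gg r r1 N x := by
          refine mul_le_mul_of_nonneg_left h3 ?_
          have := h.hM
          have := h.hX
          rw [hK]
          positivity
        have h8 : K * (((N : ℝ) + 1) * m / 2) = ((N : ℝ) + 1) ^ 2 * (M * (1 + X) ^ 2) := by
          rw [hK]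
          field_simp
        linarith
      calc x ^ N * GG r r1 r2 N x / x ≤ x ^ N * GG r r1 r2 N x := h5
        _ ≤ x ^ N * (K * gg r r1 N x) := mul_le_mul_of_nonneg_left h6 hxN.le
        _ = K * vv r r1 N x := by unfold vv; ring
    have h9 : x ^ N * GG r r1 r2 N x / x * Real.exp (-(K * x)) + vv r r1 N x * (Real.exp (-(K * x)) * (-(K * 1))) =
        (x ^ N * GG r r1 r2 N x / x - K * vv r r1 N x) * Real.exp (-(K * x)) := by ring
    rw [h9]
    exact mul_nonpos_of_nonpos_of_nonneg (by linarith) (Real.exp_pos _).le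
  have h1 := hanti hy hz hyz
  simp only at h1
  have h2 : vv r r1 N z = vv r r1 N z * Real.exp (-(K * z)) * Real.exp (K * z) := by
    rw [mul_assoc, ← Real.exp_add]
    simp
  have h3 : Real.exp (K * (z - y)) * vv r r1 N y = vv r r1 N y * Real.exp (-(K * y)) * Real.exp (K * z) := by
    have e1 : Real.exp (K * (z - y)) = Real.exp (-(K * y)) * Real.exp (K * z) := by
      rw [← Real.exp_add]
      congr 1
      ring
    rw [e1]
    ring
  rw [h2, h3]
  exact mul_le_mul_of_nonneg_right h1 (Real.exp_pos _).le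

lemma mono_v (h : Bd r r1 r2 p q m M X β) {N : ℕ} (hN : 2 * X * M + X ^ 2 * M ≤ N * m / 2) :
    MonotoneOn (vv r r1 N) (Icc p q) := by
  have h1 := mono_comb h N 0 1 0 (fun y hy => by
    have := GG_lo h hN hy
    have h2 : 0 ≤ (N : ℝ) * (N + 1) * m / 2 := by
      have := h.hm
      positivity
    linarith)
  simpa using h1

lemma slope_v (h : Bd r r1 r2 p q m M X β) {N : ℕ} (hN : 2 * X * M + X ^ 2 * M ≤ N * m / 2) (c : ℝ) {y z : ℝ}
    (hy : y ∈ Icc p q) (hz : z ∈ Icc p q) (hyz : y ≤ z) :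
    vv r r1 N y * (z - y) ≤ (r z * z ^ (N + 1) + c) - (r y * y ^ (N + 1) + c) := by
  have hsub : Icc y z ⊆ Icc p q := Icc_subset_Icc hy.1 hz.2
  exact Convex.mul_sub_le_image_sub_of_le_deriv (convex_Icc y z)
    (fun t ht => (deriv_u h N c (hsub ht)).continuousAt.continuousWithinAt)
    (fun t ht => (deriv_u h N c (hsub (interior_subset ht))).differentiableAt.differentiableWithinAt)
    (fun t ht => by
      have ht' := interior_subset ht
      rw [(deriv_u h N c (hsub ht')).deriv]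
      exact mono_v h hN hy (hsub ht') ht'.1) y (left_mem_Icc.2 hyz) z (right_mem_Icc.2 hyz) hyz

/-- everything on a small interval -/
theorem local_all {x₀ β₁ β₂ τ : ℝ} (hx₀ : 1 < x₀) (hβ : 1 < β₁) (h₁ : β₁ < x₀) (h₂ : x₀ < β₂) (hτ : 0 < τ) (D : ℕ) :
    ∃ ρ₀ : ℝ, 0 < ρ₀ ∧ ∀ (O : Set ℝ) (r : ℝ → ℝ), IsOpen O → O ⊆ Ioo (x₀ - ρ₀) (x₀ + ρ₀) → ContDiffOn ℝ 2 r O →
      (∀ x ∈ O, 0 < r x) → ∀ c : ℕ → ℝ, ∀ x ∈ O, ∀ O' ∈ 𝓝 x, ∀ (W : ℕ) (κ : ℝ), 0 < κ →
      ∃ (n₀ : ℕ) (v : ℕ → ℝ → ℝ) (a b : ℝ), x ∈ Ioo a b ∧ Icc a b ⊆ O' ∧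
        Fam (fun n x => r x * x ^ (n + n₀ + 1) + c (n + n₀)) v a b β₁ β₂ ∧ Ratio v a b τ D (fun d => x₀ ^ d) ∧
        Dist (fun n x => r x * x ^ (n + n₀ + 1) + c (n + n₀)) v a b κ W ∧ Inc v a b β₁ τ D (fun d => x₀ ^ d) := by
  -- the constants
  set β' : ℝ := (β₁ + x₀) / 2 with hβ'
  set P : ℝ := (x₀ + β₂) / 2 with hP
  have hβ'1 : β₁ < β' := by rw [hβ']; linarith
  have hβ'x : β' < x₀ := by rw [hβ']; linarith
  have hPx : x₀ < P := by rw [hP]; linarith
  have hPβ : P < β₂ := by rw [hP]; linarith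
  have hP1 : 1 < P := by linarith
  obtain ⟨ε, hε0, hε1, hε2, hε3⟩ : ∃ ε : ℝ, 0 < ε ∧ β₁ ≤ β' * (1 - ε) ∧ P * (1 + ε) ≤ β₂ ∧ P ^ D * ε ≤ τ / 2 := by
    have e1 : ∀ᶠ ε in 𝓝[>] (0 : ℝ), β₁ < β' * (1 - ε) := by
      have hc : ContinuousAt (fun ε : ℝ => β' * (1 - ε)) 0 := by fun_prop
      have : β₁ < (fun ε : ℝ => β' * (1 - ε)) 0 := by simpa using hβ'1
      exact (continuousAt_const.eventually_lt hc this).filter_mono nhdsWithin_le_nhds
    have e2 : ∀ᶠ ε in 𝓝[>] (0 : ℝ), P * (1 + ε) < β₂ := by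
      have hc : ContinuousAt (fun ε : ℝ => P * (1 + ε)) 0 := by fun_prop
      have : (fun ε : ℝ => P * (1 + ε)) 0 < β₂ := by simpa using hPβ
      exact (hc.eventually_lt continuousAt_const this).filter_mono nhdsWithin_le_nhds
    have e3 : ∀ᶠ ε in 𝓝[>] (0 : ℝ), P ^ D * ε < τ / 2 := by
      have hc : ContinuousAt (fun ε : ℝ => P ^ D * ε) 0 := by fun_prop
      have : (fun ε : ℝ => P ^ D * ε) 0 < τ / 2 := by simpa using hτ
      exact (hc.eventually_lt continuousAt_const this).filter_mono nhdsWithin_le_nhds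
    obtain ⟨ε, ⟨⟨h1, h2⟩, h3⟩, h4⟩ := (((e1.and e2).and e3).and self_mem_nhdsWithin).exists
    exact ⟨ε, h4, h1.le, h2.le, h3.le⟩
  have hev : ∀ᶠ y in 𝓝 x₀, β' < y ∧ y < P ∧ ∀ d ∈ Finset.range (D + 1), |y ^ d - x₀ ^ d| < τ / 2 := by
    refine (lt_mem_nhds hβ'x).and ((gt_mem_nhds hPx).and ?_)
    rw [Filter.eventually_all_finset]
    intro d _
    have hc : ContinuousAt (fun y : ℝ => |y ^ d - x₀ ^ d|) x₀ := by fun_prop
    have : (fun y : ℝ => |y ^ d - x₀ ^ d|) x₀ < τ / 2 := by simp; linarith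
    exact hc.eventually_lt continuousAt_const this
  obtain ⟨ρ₀, hρ₀, hball⟩ := Metric.eventually_nhds_iff.1 hev
  refine ⟨ρ₀, hρ₀, fun O r hO hOs hr hrpos c x hx O' hO' W κ hκ => ?_⟩
  have hG : ∀ y ∈ O, β' < y ∧ y < P ∧ ∀ d ∈ Finset.range (D + 1), |y ^ d - x₀ ^ d| < τ / 2 := by
    intro y hy
    apply hball
    have := hOs hy
    rw [Real.dist_eq, abs_lt]
    rw [mem_Ioo] at this
    constructor <;> linarith [this.1, this.2]
  -- derivatives
  have hr' : ContDiffOn ℝ 1 (deriv r) O := ((contDiffOn_succ_iff_deriv_of_isOpen (n := 1) hO).1 hr).2.2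
  have hr'' : ContDiffOn ℝ 0 (deriv (deriv r)) O := ((contDiffOn_succ_iff_deriv_of_isOpen (n := 0) hO).1 hr').2.2
  have hd0 : ∀ y ∈ O, HasDerivAt r (deriv r y) y := fun y hy =>
    ((hr.differentiableOn (by norm_num)).differentiableAt (hO.mem_nhds hy)).hasDerivAt
  have hd1 : ∀ y ∈ O, HasDerivAt (deriv r) (deriv (deriv r) y) y := fun y hy =>
    ((hr'.differentiableOn (by norm_num)).differentiableAt (hO.mem_nhds hy)).hasDerivAt
  -- a fixed neighbourhood
  obtain ⟨δ, hδ, hOδ⟩ := Metric.mem_nhds_iff.1 (Filter.inter_mem hO' (hO.mem_nhds hx))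
  set h₀ : ℝ := δ / 2 with hh₀
  have hh0 : 0 < h₀ := by positivity
  have hin : ∀ y ∈ Icc (x - h₀) (x + h₀), y ∈ O' ∩ O := by
    intro y hy
    apply hOδ
    rw [Metric.mem_ball, Real.dist_eq, abs_lt]
    rw [mem_Icc] at hy
    constructor <;> linarith [hy.1, hy.2]
  have hsubO : Icc (x - h₀) (x + h₀) ⊆ O := fun y hy => (hin y hy).2
  have hcpt : IsCompact (Icc (x - h₀) (x + h₀)) := isCompact_Icc
  have hne : (Icc (x - h₀) (x + h₀)).Nonempty := nonempty_Icc.2 (by linarith)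
  obtain ⟨y₁, hy₁, hmin⟩ := hcpt.exists_isMinOn hne (hr.continuousOn.mono hsubO)
  obtain ⟨M0, hM0⟩ := hcpt.exists_bound_of_continuousOn (hr.continuousOn.mono hsubO)
  obtain ⟨M1, hM1⟩ := hcpt.exists_bound_of_continuousOn (hr'.continuousOn.mono hsubO)
  obtain ⟨M2, hM2⟩ := hcpt.exists_bound_of_continuousOn (hr''.continuousOn.mono hsubO)
  set m : ℝ := r y₁ with hm
  set M : ℝ := max (max M0 M1) (max M2 0) with hM
  have hMM0 : M0 ≤ M := (le_max_left _ _).trans (le_max_left _ _)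
  have hMM1 : M1 ≤ M := (le_max_right _ _).trans (le_max_left _ _)
  have hMM2 : M2 ≤ M := (le_max_left _ _).trans (le_max_right _ _)
  have hMM3 : 0 ≤ M := (le_max_right _ _).trans (le_max_right _ _)
  have hmpos : 0 < m := hrpos y₁ (hsubO hy₁)
  have hB0 : Bd r (deriv r) (deriv (deriv r)) (x - h₀) (x + h₀) m M P β' := by
    refine ⟨by linarith, hmpos, hMM3, hP1.le, fun y hy => hd0 y (hsubO hy), fun y hy => hd1 y (hsubO hy),
      fun y hy => (hG y (hsubO hy)).1.le, fun y hy => (hG y (hsubO hy)).2.1.le, fun y hy => hmin hy, fun y hy => ?_,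
      fun y hy => ?_, fun y hy => ?_⟩
    · exact ((le_abs_self _).trans (hM0 y hy)).trans hMM0
    · exact (hM1 y hy).trans hMM1
    · exact (hM2 y hy).trans hMM2
  -- the first index
  have hnat : Tendsto (fun n : ℕ => (n : ℝ)) atTop atTop := tendsto_natCast_atTop_atTop
  have ea : ∀ᶠ n : ℕ in atTop, 2 * P * M + P ^ 2 * M ≤ (n : ℝ) * m / 2 := by
    have h1 : Tendsto (fun n : ℕ => (n : ℝ) * m / 2) atTop atTop :=
      (hnat.atTop_mul_const hmpos).atTop_div_const (by norm_num)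
    exact h1.eventually_ge_atTop _
  have eb : ∀ᶠ n : ℕ in atTop, ((D + 1 : ℕ) : ℝ) * ((D + 1 : ℕ) + 3 + 2 * P) * M ≤ ε * ((n : ℝ) * m / 2) := by
    have h1 : Tendsto (fun n : ℕ => ε * ((n : ℝ) * m / 2)) atTop atTop :=
      ((hnat.atTop_mul_const hmpos).atTop_div_const (by norm_num)).const_mul_atTop hε0
    exact h1.eventually_ge_atTop _
  have ec : ∀ᶠ n : ℕ in atTop, Real.exp (2 * (M * (1 + P) ^ 2) / m * (1 + W) * 4 / (m * β' ^ n)) ≤ 1 + min κ 1 := by
    have h0 : Tendsto (fun n : ℕ => m * β' ^ n) atTop atTop :=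
      (tendsto_pow_atTop_atTop_of_one_lt (by linarith : 1 < β')).const_mul_atTop hmpos
    have h1 : Tendsto (fun n : ℕ => Real.exp (2 * (M * (1 + P) ^ 2) / m * (1 + W) * 4 / (m * β' ^ n))) atTop (𝓝 (Real.exp 0)) :=
      (Real.continuous_exp.tendsto 0).comp (h0.const_div_atTop _)
    have h2 : Real.exp 0 < 1 + min κ 1 := by
      rw [Real.exp_zero]
      have : 0 < min κ 1 := lt_min hκ one_pos
      linarith
    exact (h1.eventually_lt_const h2).mono fun n hn => hn.le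
  have ed : ∀ᶠ n : ℕ in atTop, 3 / 2 ≤ h₀ * m * ((n : ℝ) + 1) := by
    have h1 : Tendsto (fun n : ℕ => h₀ * m * ((n : ℝ) + 1)) atTop atTop :=
      (tendsto_atTop_add_const_right _ 1 hnat).const_mul_atTop (by positivity)
    exact h1.eventually_ge_atTop _
  obtain ⟨n₀, ha, hb, hc, hd⟩ := (ea.and (eb.and (ec.and ed))).exists
  have ha' : ∀ n : ℕ, 2 * P * M + P ^ 2 * M ≤ ((n + n₀ : ℕ) : ℝ) * m / 2 := by
    intro n
    refine ha.trans ?_
    push_cast
    have : (0 : ℝ) ≤ n := Nat.cast_nonneg n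
    nlinarith
  have hb' : ∀ n : ℕ, ((D + 1 : ℕ) : ℝ) * ((D + 1 : ℕ) + 3 + 2 * P) * M ≤ ε * (((n + n₀ : ℕ) : ℝ) * m / 2) := by
    intro n
    refine hb.trans (mul_le_mul_of_nonneg_left ?_ hε0.le)
    push_cast
    have : (0 : ℝ) ≤ n := Nat.cast_nonneg n
    nlinarith
  -- the root interval
  obtain ⟨h, hh, hhh, hhe⟩ : ∃ h : ℝ, 0 < h ∧ h ≤ h₀ ∧
      (r (x + h) * (x + h) ^ (n₀ + 1)) - (r (x - h) * (x - h) ^ (n₀ + 1)) = 3 / 2 := by
    have hcr : ContinuousOn r (Icc (x - h₀) (x + h₀)) := hr.continuousOn.mono hsubO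
    have hcont : ContinuousOn (fun h : ℝ => (r (x + h) * (x + h) ^ (n₀ + 1)) - (r (x - h) * (x - h) ^ (n₀ + 1))) (Icc 0 h₀) := by
      refine ContinuousOn.sub (ContinuousOn.mul ?_ (by fun_prop)) (ContinuousOn.mul ?_ (by fun_prop))
      · exact hcr.comp (by fun_prop) fun t ht => ⟨by linarith [ht.1], by linarith [ht.2]⟩
      · exact hcr.comp (by fun_prop) fun t ht => ⟨by linarith [ht.2], by linarith [ht.1]⟩
    have h3 := slope_v hB0 ha 0 (left_mem_Icc.2 (by linarith : x - h₀ ≤ x + h₀)) (right_mem_Icc.2 (by linarith)) (by linarith)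
    have h4 := gg_lo hB0 ha (left_mem_Icc.2 (by linarith : x - h₀ ≤ x + h₀))
    have h5 : 1 ≤ (x - h₀) ^ n₀ :=
      one_le_pow₀ (by linarith [hB0.lo _ (left_mem_Icc.2 (by linarith : x - h₀ ≤ x + h₀))])
    have h6 : ((n₀ : ℝ) + 1) * m / 2 ≤ vv r (deriv r) n₀ (x - h₀) := by
      unfold vv
      have : 0 ≤ gg r (deriv r) n₀ (x - h₀) := le_trans (by positivity) h4
      nlinarith
    have h7 : 3 / 2 ≤ (r (x + h₀) * (x + h₀) ^ (n₀ + 1)) - (r (x - h₀) * (x - h₀) ^ (n₀ + 1)) := by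
      have h8 : ((n₀ : ℝ) + 1) * m / 2 * (x + h₀ - (x - h₀)) ≤ vv r (deriv r) n₀ (x - h₀) * (x + h₀ - (x - h₀)) :=
        mul_le_mul_of_nonneg_right h6 (by linarith)
      have h9 : ((n₀ : ℝ) + 1) * m / 2 * (x + h₀ - (x - h₀)) = h₀ * m * ((n₀ : ℝ) + 1) := by ring
      linarith
    have h10 : (3 / 2 : ℝ) ∈ Icc ((fun h : ℝ => (r (x + h) * (x + h) ^ (n₀ + 1)) - (r (x - h) * (x - h) ^ (n₀ + 1))) 0)
        ((fun h : ℝ => (r (x + h) * (x + h) ^ (n₀ + 1)) - (r (x - h) * (x - h) ^ (n₀ + 1))) h₀) := by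
      refine ⟨?_, h7⟩
      simp only [add_zero, sub_zero, sub_self]
      norm_num
    obtain ⟨h, hh, hhe⟩ := intermediate_value_Icc hh0.le hcont h10
    refine ⟨h, lt_of_le_of_ne hh.1 ?_, hh.2, hhe⟩
    rintro rfl
    simp only [add_zero, sub_zero, sub_self] at hhe
    norm_num at hhe
  have hsub : Icc (x - h) (x + h) ⊆ Icc (x - h₀) (x + h₀) := Icc_subset_Icc (by linarith) (by linarith)
  have hB : Bd r (deriv r) (deriv (deriv r)) (x - h) (x + h) m M P β' :=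
    ⟨hB0.hβ, hB0.hm, hB0.hM, hB0.hX, fun y hy => hB0.d0 y (hsub hy), fun y hy => hB0.d1 y (hsub hy),
      fun y hy => hB0.lo y (hsub hy), fun y hy => hB0.up y (hsub hy), fun y hy => hB0.rlo y (hsub hy),
      fun y hy => hB0.rup y (hsub hy), fun y hy => hB0.r1b y (hsub hy), fun y hy => hB0.r2b y (hsub hy)⟩
  have hL : ∀ y ∈ Icc (x - h) (x + h), β' < y ∧ y < P ∧ ∀ d ∈ Finset.range (D + 1), |y ^ d - x₀ ^ d| < τ / 2 :=
    fun y hy => hG y (hsubO (hsub hy))
  have hvpos : ∀ n : ℕ, ∀ y ∈ Icc (x - h) (x + h), 0 < vv r (deriv r) (n + n₀) y := by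
    intro n y hy
    have h1 := gg_lo hB (ha' n) hy
    have h2 : 0 < y := by linarith [(hL y hy).1]
    unfold vv
    refine mul_pos (by positivity) (lt_of_lt_of_le ?_ h1)
    positivity
  -- comparison of two derivatives
  have hvr : ∀ n d : ℕ, d ≤ D + 1 → ∀ y ∈ Icc (x - h) (x + h),
      y ^ d * (1 - ε) * vv r (deriv r) (n + n₀) y ≤ vv r (deriv r) (n + n₀ + d) y ∧
      vv r (deriv r) (n + n₀ + d) y ≤ y ^ d * (1 + ε) * vv r (deriv r) (n + n₀) y := by
    intro n d hdD y hy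
    have h1 := abs_le.1 (gg_ratio hB (d := d) (D := D + 1) hdD (ha' n) (hb' n) hε0.le hy)
    have h2 : 0 < y := by linarith [(hL y hy).1]
    unfold vv
    rw [pow_add y (n + n₀) d]
    have h3 : 0 < y ^ (n + n₀) * y ^ d := by positivity
    constructor
    · calc y ^ d * (1 - ε) * (y ^ (n + n₀) * gg r (deriv r) (n + n₀) y) =
          y ^ (n + n₀) * y ^ d * ((1 - ε) * gg r (deriv r) (n + n₀) y) := by ring
        _ ≤ _ := mul_le_mul_of_nonneg_left (by linarith [h1.1]) h3.le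
    · calc y ^ (n + n₀) * y ^ d * gg r (deriv r) (n + n₀ + d) y ≤
          y ^ (n + n₀) * y ^ d * ((1 + ε) * gg r (deriv r) (n + n₀) y) :=
            mul_le_mul_of_nonneg_left (by linarith [h1.2]) h3.le
        _ = _ := by ring
  have hGr : ∀ n d : ℕ, d ≤ D + 1 → ∀ y ∈ Icc (x - h) (x + h),
      0 ≤ GG r (deriv r) (deriv (deriv r)) (n + n₀) y ∧
      (1 - ε) * GG r (deriv r) (deriv (deriv r)) (n + n₀) y ≤ GG r (deriv r) (deriv (deriv r)) (n + n₀ + d) y ∧
      GG r (deriv r) (deriv (deriv r)) (n + n₀ + d) y ≤ (1 + ε) * GG r (deriv r) (deriv (deriv r)) (n + n₀) y := by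
    intro n d hdD y hy
    have h1 := abs_le.1 (GG_ratio hB (d := d) (D := D + 1) hdD (ha' n) (hb' n) hε0.le hy)
    refine ⟨le_trans (by positivity) (GG_lo hB (ha' n) hy), by linarith [h1.1], by linarith [h1.2]⟩
  have hε1' : ε < 1 := by
    by_contra hcon
    have : β' * (1 - ε) ≤ 0 := mul_nonpos_of_nonneg_of_nonpos (by linarith) (by linarith)
    linarith
  have hpd : ∀ d : ℕ, d ≤ D → ∀ y ∈ Icc (x - h) (x + h), 0 < y ^ d ∧ y ^ d * ε ≤ τ / 2 ∧
      y ^ d - x₀ ^ d ≤ τ / 2 ∧ x₀ ^ d - y ^ d ≤ τ / 2 := by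
    intro d hdD y hy
    have h1 := hL y hy
    have h2 := abs_lt.1 (h1.2.2 d (Finset.mem_range.2 (by omega)))
    have hy1 : 1 < y := by linarith [h1.1]
    refine ⟨by positivity, ?_, by linarith [h2.2], by linarith [h2.1]⟩
    have h3 : y ^ d ≤ P ^ D := (pow_le_pow_left₀ (by linarith) h1.2.1.le d).trans (pow_le_pow_right₀ hP1.le hdD)
    exact (mul_le_mul_of_nonneg_right h3 hε0.le).trans hε3
  -- distortion
  have hdist : ∀ n j, n ≤ j → j ≤ n + W → ∀ y ∈ Icc (x - h) (x + h), ∀ z ∈ Icc (x - h) (x + h), y ≤ z →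
      (r z * z ^ (n + n₀ + 1) + c (n + n₀)) - (r y * y ^ (n + n₀ + 1) + c (n + n₀)) ≤ 2 →
      vv r (deriv r) (j + n₀) z ≤ (1 + min κ 1) * vv r (deriv r) (j + n₀) y := by
    intro n j hnj hjW y hy z hz hyz hu
    have h1 := slope_v hB (ha' n) (c (n + n₀)) hy hz hyz
    have h2 := gg_lo hB (ha' n) hy
    have hy1 := (hL y hy).1
    have h3 : β' ^ n₀ * (((n + n₀ : ℕ) : ℝ) + 1) * m / 2 ≤ vv r (deriv r) (n + n₀) y := by
      unfold vv
      have h4 : β' ^ n₀ ≤ y ^ (n + n₀) :=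
        (pow_le_pow_left₀ (by linarith) hy1.le n₀).trans (pow_le_pow_right₀ (by linarith) (by omega))
      calc β' ^ n₀ * (((n + n₀ : ℕ) : ℝ) + 1) * m / 2 = β' ^ n₀ * ((((n + n₀ : ℕ) : ℝ) + 1) * m / 2) := by ring
        _ ≤ y ^ (n + n₀) * gg r (deriv r) (n + n₀) y := by
          have : 0 ≤ β' := by linarith
          have : 0 ≤ y := by linarith
          exact mul_le_mul h4 h2 (by positivity) (by positivity)
    have hzy : 0 ≤ z - y := by linarith
    have h5 : β' ^ n₀ * (((n + n₀ : ℕ) : ℝ) + 1) * m / 2 * (z - y) ≤ 2 := by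
      have := mul_le_mul_of_nonneg_right h3 hzy
      linarith
    have h6 := dist_v hB (ha' j) hy hz hyz
    have hβpos : 0 < β' ^ n₀ := pow_pos (by linarith) _
    have h7 : 2 * (M * (1 + P) ^ 2) / m * (((j + n₀ : ℕ) : ℝ) + 1) * (z - y) ≤
        2 * (M * (1 + P) ^ 2) / m * (1 + W) * 4 / (m * β' ^ n₀) := by
      rw [le_div_iff₀ (by positivity)]
      have h8 : ((j + n₀ : ℕ) : ℝ) + 1 ≤ (1 + W) * (((n + n₀ : ℕ) : ℝ) + 1) := by
        have h9 : ((j : ℕ) : ℝ) ≤ n + W := by exact_mod_cast hjW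
        push_cast
        have : (0 : ℝ) ≤ W := Nat.cast_nonneg W
        have : (0 : ℝ) ≤ n := Nat.cast_nonneg n
        have : (0 : ℝ) ≤ n₀ := Nat.cast_nonneg n₀
        nlinarith
      have hC : 0 ≤ 2 * (M * (1 + P) ^ 2) / m := by positivity
      calc 2 * (M * (1 + P) ^ 2) / m * (((j + n₀ : ℕ) : ℝ) + 1) * (z - y) * (m * β' ^ n₀) =
          2 * (M * (1 + P) ^ 2) / m * ((((j + n₀ : ℕ) : ℝ) + 1) * ((z - y) * (m * β' ^ n₀))) := by ring
        _ ≤ 2 * (M * (1 + P) ^ 2) / m * ((1 + W) * (((n + n₀ : ℕ) : ℝ) + 1) * ((z - y) * (m * β' ^ n₀))) := by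
          refine mul_le_mul_of_nonneg_left (mul_le_mul_of_nonneg_right h8 (by positivity)) hC
        _ = 2 * (M * (1 + P) ^ 2) / m * (1 + W) * (2 * (β' ^ n₀ * (((n + n₀ : ℕ) : ℝ) + 1) * m / 2 * (z - y))) := by ring
        _ ≤ 2 * (M * (1 + P) ^ 2) / m * (1 + W) * (2 * 2) := by
          refine mul_le_mul_of_nonneg_left (by linarith) (by positivity)
        _ = _ := by ring
    exact h6.trans (mul_le_mul_of_nonneg_right ((Real.exp_le_exp.2 h7).trans hc) (hvpos j y hy).le)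
  refine ⟨n₀, fun n => vv r (deriv r) (n + n₀), x - h, x + h, ⟨by linarith, by linarith⟩, ?_, ?_, ?_, ?_, ?_⟩
  · exact fun y hy => (hin y (hsub hy)).1
  · refine ⟨by linarith, hβ, by linarith, ?_, ?_, ?_, ?_, ?_, ?_, ?_⟩
    · exact fun n y hy => deriv_u hB (n + n₀) (c (n + n₀)) hy
    · exact fun n y hy => (deriv_v hB (n + n₀) hy).continuousAt.continuousWithinAt
    · exact hvpos
    · exact fun n => mono_v hB (ha' n)
    · intro n y hy
      have h1 := hvr n 1 (by omega) y hy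
      have h2 := hvpos n y hy
      have h3 := hL y hy
      have e : n + 1 + n₀ = n + n₀ + 1 := by omega
      simp only [e]
      rw [pow_one] at h1
      have h4 : β₁ ≤ y * (1 - ε) := hε1.trans (mul_le_mul_of_nonneg_right h3.1.le (by linarith))
      have h5 : y * (1 + ε) ≤ β₂ := (mul_le_mul_of_nonneg_right h3.2.1.le (by linarith)).trans hε2
      exact ⟨(mul_le_mul_of_nonneg_right h4 h2.le).trans h1.1, h1.2.trans (mul_le_mul_of_nonneg_right h5 h2.le)⟩
    · have e : (r (x + h) * (x + h) ^ (0 + n₀ + 1) + c (0 + n₀)) - (r (x - h) * (x - h) ^ (0 + n₀ + 1) + c (0 + n₀)) = 3 / 2 := by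
        rw [Nat.zero_add]
        linarith
      simp only [e]
      norm_num
    · intro n y hy z hz hyz hu
      have h1 := hdist n n le_rfl (by omega) y hy z hz hyz hu
      have h2 := hvpos n y hy
      have h3 : min κ 1 ≤ 1 := min_le_right _ _
      refine h1.trans (mul_le_mul_of_nonneg_right (by linarith) h2.le)
  · intro d hd1 hdD j y hy
    have h1 := hvr j d (by omega) y hy
    have h2 := hvpos j y hy
    have h3 := hpd d hdD y hy
    have e : j + d + n₀ = j + n₀ + d := by omega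
    simp only [e]
    rw [abs_le]
    constructor
    · have h4 : (x₀ ^ d - τ) * vv r (deriv r) (j + n₀) y ≤ y ^ d * (1 - ε) * vv r (deriv r) (j + n₀) y :=
        mul_le_mul_of_nonneg_right (by linarith [h3.2.1, h3.2.2.2]) h2.le
      linarith [h1.1]
    · have h4 : y ^ d * (1 + ε) * vv r (deriv r) (j + n₀) y ≤ (x₀ ^ d + τ) * vv r (deriv r) (j + n₀) y :=
        mul_le_mul_of_nonneg_right (by linarith [h3.2.1, h3.2.2.1]) h2.le
      linarith [h1.2]
  · intro n j hnj hjW y hy z hz hyz hu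
    have h1 := hdist n j hnj hjW y hy z hz hyz hu
    have h2 := hvpos j y hy
    have h3 : min κ 1 ≤ κ := min_le_left _ _
    exact h1.trans (mul_le_mul_of_nonneg_right (by linarith) h2.le)
  · refine ⟨?_, ?_, ?_⟩
    · intro n
      have h1 := mono_comb hB (n + n₀) 1 (-β₁) 1 (fun y hy => by
        have h2 := hGr n 1 (by omega) y hy
        have h3 := hL y hy
        have h4 : β₁ ≤ y * (1 - ε) := hε1.trans (mul_le_mul_of_nonneg_right h3.1.le (by linarith))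
        have h5 := mul_le_mul_of_nonneg_right h4 h2.1
        have h6 : y * ((1 - ε) * GG r (deriv r) (deriv (deriv r)) (n + n₀) y) ≤
            y * GG r (deriv r) (deriv (deriv r)) (n + n₀ + 1) y := mul_le_mul_of_nonneg_left h2.2.1 (by linarith [h3.1])
        rw [pow_one]
        linarith)
      have e : n + 1 + n₀ = n + n₀ + 1 := by omega
      simp only [e]
      refine h1.congr fun y hy => ?_
      ring
    · intro d hd1 hdD j
      have h1 := mono_comb hB (j + n₀) d (-(x₀ ^ d - τ)) 1 (fun y hy => by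
        have h2 := hGr j d (by omega) y hy
        have h3 := hpd d hdD y hy
        have h4 : (x₀ ^ d - τ) ≤ y ^ d * (1 - ε) := by linarith [h3.2.1, h3.2.2.2]
        have h5 := mul_le_mul_of_nonneg_right h4 h2.1
        have h6 : y ^ d * ((1 - ε) * GG r (deriv r) (deriv (deriv r)) (j + n₀) y) ≤
            y ^ d * GG r (deriv r) (deriv (deriv r)) (j + n₀ + d) y := mul_le_mul_of_nonneg_left h2.2.1 h3.1.le
        linarith)
      have e : j + d + n₀ = j + n₀ + d := by omega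
      simp only [e]
      refine h1.congr fun y hy => ?_
      ring
    · intro d hd1 hdD j
      have h1 := mono_comb hB (j + n₀) d (x₀ ^ d + τ) (-1) (fun y hy => by
        have h2 := hGr j d (by omega) y hy
        have h3 := hpd d hdD y hy
        have h4 : y ^ d * (1 + ε) ≤ x₀ ^ d + τ := by linarith [h3.2.1, h3.2.2.1]
        have h5 := mul_le_mul_of_nonneg_right h4 h2.1
        have h6 : y ^ d * GG r (deriv r) (deriv (deriv r)) (j + n₀ + d) y ≤
            y ^ d * ((1 + ε) * GG r (deriv r) (deriv (deriv r)) (j + n₀) y) := mul_le_mul_of_nonneg_left h2.2.2 h3.1.le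
        linarith)
      have e : j + d + n₀ = j + n₀ + d := by omega
      simp only [e]
      refine h1.congr fun y hy => ?_
      ring

/-- powers times a positive function of class `C^2` -/
theorem instG_pow {x₀ β₁ β₂ τ : ℝ} (hx₀ : 1 < x₀) (hβ : 1 < β₁) (h₁ : β₁ < x₀) (h₂ : x₀ < β₂) (hτ : 0 < τ) (D : ℕ) :
    ∃ ρ₀ : ℝ, 0 < ρ₀ ∧ ∀ (O : Set ℝ) (r : ℝ → ℝ), IsOpen O → O ⊆ Ioo (x₀ - ρ₀) (x₀ + ρ₀) → ContDiffOn ℝ 2 r O →
      (∀ x ∈ O, 0 < r x) → ∀ c : ℕ → ℝ,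
      LocFam (fun n x => r x * x ^ (n + 1) + c n) O (fun d => x₀ ^ d) D τ β₁ β₂ ∧
      LocFamI (fun n x => r x * x ^ (n + 1) + c n) O (fun d => x₀ ^ d) D τ β₁ β₂ := by
  obtain ⟨ρ₀, hρ₀, H⟩ := local_all hx₀ hβ h₁ h₂ hτ D
  refine ⟨ρ₀, hρ₀, fun O r hO hOs hr hpos c => ⟨?_, ?_⟩⟩
  · intro x hx O' hO' W κ hκ
    obtain ⟨n₀, v, a, b, h1, h2, h3, h4, h5, -⟩ := H O r hO hOs hr hpos c x hx O' hO' W κ hκ
    exact ⟨n₀, v, a, b, h1, h2, h3, h4, h5⟩
  · intro x hx O' hO'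
    obtain ⟨n₀, v, a, b, h1, h2, h3, h4, -, h6⟩ := H O r hO hOs hr hpos c x hx O' hO' 0 1 one_pos
    exact ⟨n₀, v, a, b, h1, h2, h3, h4, h6⟩

end Pool.Agent.Helper81.KD
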